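import Pool.Agent.K7.H39.IQ.Top
import Pool.Agent.K7.H39.IQ.Shk
import Pool.Agent.K7.H39.IQ.Wid
import Pool.Agent.K7.H10.IQ_LIM
import Pool.Agent.K7.H21.IQ_CPT
import Pool.Agent.K7.H33.IQ_INQ
import Pool.Agent.K7.H33.IQ_PER
import Pool.Agent.K7.H99.IQ_SHT
import Pool.Agent.K7.H99.IQ_VOL

set_option autoImplicit false

/-!
# The power-comparable isoperimetric inequality for projections fails

The ratios `ρ₃(K) = 9 π λ₃(K)² / (2 V₂(K)³)` and `ρ₂(L) = π λ₂(L) / V₁(L)²` of the problem are not
power-comparable: the sixth root of `ρ₃` and the square root of `ρ₂` compare a radius given by the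
volume with one given by the surface. In this normalisation the question is whether
`ρ₃(K) ≥ min ρ₂(K | u^⊥) ^ 3`. This is weaker than the inequality `ρ₃(K) ≥ min ρ₂(K | u^⊥)` of the
problem (as `ρ₂ ≤ 1`), which fails for the cube (`S13210`); the cube satisfies the weaker inequality.

Here it is shown that the weaker inequality fails too. The body is the truncated tetrahedron
`K = {x | -2 ≤ ⟨t, x⟩ ≤ 4 for t = (1,1,1), (1,-1,-1), (-1,1,-1), (-1,-1,1)}`, with
`ρ₃(K) = 75 π / (343 √3) = 0.3966…` and `ρ₂(K | u^⊥) ≥ 7 π / 29.9`, `(7 π / 29.9) ^ 3 = 0.3978…`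
(in fact `ρ₂(K | u^⊥) ≥ 0.78`).

The area of the projection along the unit vector `u` is written, as in the frozen statements, as
`vol (K + [0, u]) - vol K`, and `V₂` as a limit in Steiner's formula.
-/

namespace Pool.Agent.Results.MP_598757_gt.TruncatedTetrahedron

open MeasureTheory Filter Topology
open scoped Pointwise

/-- The support function of `K`. -/
noncomputable def support (K : Set (EuclideanSpace ℝ (Fin 3))) (v : EuclideanSpace ℝ (Fin 3)) : ℝ :=
  sSup ((fun x => inner ℝ v x) '' K)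

/-- Half the perimeter of the orthogonal projection of `K` to the plane with the orthonormal basis
`a`, `b`, by Cauchy's formula. -/
noncomputable def halfPerimeter (K : Set (EuclideanSpace ℝ (Fin 3)))
    (a b : EuclideanSpace ℝ (Fin 3)) : ℝ :=
  (1 / 2) * ∫ θ in (0 : ℝ)..(2 * Real.pi), support K (Real.cos θ • a + Real.sin θ • b)

/-- **There are a convex body `K` in three-space and a real number `c` with `ρ₃(K) < c` and
`c ≤ ρ₂(K | u^⊥) ^ 3` for all unit vectors `u`.** -/
theorem result : ∃ K : Set (EuclideanSpace ℝ (Fin 3)),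
    IsCompact K ∧ Convex ℝ K ∧ (interior K).Nonempty ∧
      ∃ S c : ℝ, 0 < S ∧
        Tendsto (fun t : ℝ =>
          ((volume (K + Metric.closedBall (0 : EuclideanSpace ℝ (Fin 3)) t)).toReal
            - (volume K).toReal) / (2 * t)) (𝓝[>] 0) (𝓝 S) ∧
        9 * Real.pi * (volume K).toReal ^ 2 / (2 * S ^ 3) < c ∧
        ∀ u a b : EuclideanSpace ℝ (Fin 3), Orthonormal ℝ ![u, a, b] →
          0 < halfPerimeter K a b ∧
          c ≤ (Real.pi * ((volume (K + segment ℝ 0 u)).toReal - (volume K).toReal) /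
            halfPerimeter K a b ^ 2) ^ 3 := by
  have hV := Pool.Agent.K7.H99.IQ.vol_holds
  have hC := Pool.Agent.K7.H21.IQ.cpt
  have hK := Pool.Agent.K7.H39.IQ.t_shk hV hC Pool.Agent.K7.H99.IQ.sht
  exact ⟨_, Pool.Agent.K7.H39.IQ.assemble hV hC hK
    (Pool.Agent.K7.H33.IQ.per Pool.Agent.K7.H39.IQ.t_wid hC)
    (Pool.Agent.K7.H10.IQ.pos hC) Pool.Agent.K7.H33.IQ.inq (Pool.Agent.K7.H10.IQ.lim hV hC hK)⟩

end Pool.Agent.Results.MP_598757_gt.TruncatedTetrahedron
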